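import Pool.Agent.Q28.MM.Geo

/-!
# Murre's conjectures for all motives from (D) for one decomposition
-/

open CategoryTheory AlgebraicGeometry

universe u v w

namespace Pool.Agent.Q28.MM

open Pool.Agent.H914 Pool.Agent.H914.VarClass Pool.Agent.H914.VarClass.Obj Pool.Agent.W492.BB
  Pool.Agent.TH133 Pool.Agent.W550.Corr Pool.Agent.Q28.MC

set_option linter.unusedSectionVars false

variable {k : Type u} [Field k] {𝒱 : VarClass k} {C : TheoryData.{u, v, 0} 𝒱 ℚ}
  [hC : IsChowProj C] {K : Type w} [Field K] {H : WeilTheoryData.{u, v, w} C K}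
  [hH : IsWeilProj H] {X Y Z : 𝒱.Obj}

include hC hH

/-- The projector `P'` onto the first parts of a motive. -/
lemma ckFil_le_of_motive {p : C.A (X.prod X)} (hp : IsProjector p) {ρ ρ' σ : ℕ → C.A (X.prod X)}
    (h : IsMotiveCK H p ρ) (h' : IsMotiveCK H p ρ') (hσ : IsMotiveCK H (dg C X - p) σ)
    (hU : UniversalC H X) (j ν : ℕ) : ckFil C ρ j ν ≤ ckFil C ρ' j ν := by
  have g := isCK_add hp h hσ
  have g' := isCK_add hp h' hσ
  have key : ∀ (ρ : ℕ → C.A (X.prod X)), IsMotiveCK H p ρ → ∀ i,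
      C.comp p (ρ i + σ i) = ρ i ∧ C.comp (ρ i + σ i) p = ρ i := by
    intro ρ h i
    have h3 : C.comp p (σ i) = 0 := by
      rw [← (comp_p_of hσ i).2, ← comp_assoc, comp_sub_dg (H := H), hp.2, sub_self, zero_comp]
    have h4 : C.comp (σ i) p = 0 := by
      rw [← (comp_p_of hσ i).1, comp_assoc, sub_dg_comp (H := H), hp.2, sub_self, comp_zero]
    rw [comp_add, add_comp, h3, h4, add_zero, add_zero]
    exact ⟨(comp_p_of h i).2, (comp_p_of h i).1⟩
  have hc : ∀ (ρ : ℕ → C.A (X.prod X)), IsMotiveCK H p ρ → ∀ i,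
      C.comp p (ρ i + σ i) = C.comp (ρ i + σ i) p := fun ρ h i => by
    rw [(key ρ h i).1, (key ρ h i).2]
  have e1 : ∀ (ρ : ℕ → C.A (X.prod X)), IsMotiveCK H p ρ →
      (fun i => C.comp (ρ i + σ i) p) = ρ := fun ρ h => funext fun i => (key ρ h i).2
  intro x hx
  have h1 := ckFil_motive g hp (hc ρ h) j ν x
  rw [e1 ρ h] at h1
  have h2 := ckFil_motive g' hp (hc ρ' h') j ν x
  rw [e1 ρ' h'] at h2
  rw [h2]
  have h3 := h1.1 hx
  refine ⟨?_, h3.2⟩
  rw [murreC_of_universal hU _ _ g' g j ν]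
  exact h3.1

/-- **The conjectures for all motives `(X, p)`.** -/
theorem murre_of_lowers {π : ℕ → C.A (X.prod X)} (h : IsCK H X π) (hL : KernelLowers H π)
    {p : C.A (X.prod X)} (hp : IsProjector p) : Murre H p := by
  have hU := universal_of_lowers h hL
  have hr := ((universalC_iff h).1 hU).1
  obtain ⟨π', h', hc, -⟩ := exists_commuting h hp (fun a b hab => hr p hp.1 a b hab)
  have hL' := kernelLowers_all h hL h'
  have hB := (murreB0_iff X).1 (murreB0_of_lowers h hL) π' h'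
  have hp' := isProjector_compl (H := H) hp
  have hc' : ∀ i, C.comp (dg C X - p) (π' i) = C.comp (π' i) (dg C X - p) := by
    intro i
    rw [comp_sub_dg (H := H), sub_dg_comp (H := H), hc]
  have hρ := isMotiveCK_of_comm h' hp hc
  have hσ := isMotiveCK_of_comm h' hp' hc'
  refine ⟨⟨_, hρ, ?_, ?_⟩, ?_⟩
  · intro j i x hx hi
    rw [← hc, C.act_comp]
    exact hB j i _ (act_mem0 C hp.1 hx) hi
  · intro j x hx h0
    rw [← hc, C.act_comp]
    apply act_eq_zero_of_lowers h' hL' (act_mem0 C hp.1 hx) _ le_rfl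
    rw [cl_act, h0, TheoryData.act_map_zero]
  · intro ρ ρ' g g' j ν
    exact le_antisymm (ckFil_le_of_motive hp g g' hσ hU j ν)
      (ckFil_le_of_motive hp g' g hσ hU j ν)

omit hH in
lemma act_deg {i j : ℤ} {Γ : C.A (X.prod Y)} (hΓ : C.Deg (X.dim + i - j) Γ) {z : C.A X}
    (hz : C.Deg j z) : C.Deg i (C.act Γ z) := by
  have h := act_mem' C (e := i - j) (by rwa [← add_sub_assoc]) hz
  rwa [add_sub_cancel] at h

lemma actH_deg {i j m : ℤ} {Γ : C.A (X.prod Y)} (hΓ : C.Deg (X.dim + i - j) Γ) {a : H.A X}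
    (ha : H.Deg m a) : H.Deg (m + 2 * (i - j)) (H.act (H.cl Γ) a) :=
  actH_mem H (e := i - j) (by rwa [← add_sub_assoc]) ha

omit hH in
lemma comp_deg {i j l : ℤ} {Γ : C.A (X.prod Y)} {Δ : C.A (Y.prod Z)}
    (hΓ : C.Deg (X.dim + i - j) Γ) (hΔ : C.Deg (Y.dim + l - i) Δ) :
    C.Deg (X.dim + l - j) (C.comp Γ Δ) := by
  have h := comp_mem C (e := i - j) (e' := l - i) (by rwa [← add_sub_assoc])
    (by rwa [← add_sub_assoc]) (Γ := Γ) (Δ := Δ)
  have e : (X.dim : ℤ) + (i - j + (l - i)) = X.dim + l - j := by ring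
  rwa [e] at h

/-- Homogeneous classes of cohomology vanish outside `0, …, 2 dim X`. -/
lemma eq_zero_of_deg {m : ℤ} {a : H.A X} (ha : H.Deg m a) (hm : m < 0 ∨ 2 * X.dim < m) : a = 0 := by
  have ha' : a ∈ H.gr X m := ha
  rcases hm with hm | hm
  · rw [H.gr_neg X m hm] at ha'
    exact (Submodule.mem_bot _).1 ha'
  · rw [gr_top H hm] at ha'
    exact (Submodule.mem_bot _).1 ha'

lemma cl_eq_zero_of_homogeneous {Γ : C.A (X.prod Y)}
    (h : ∀ (m : ℤ) (a : H.A X), H.Deg m a → H.act (H.cl Γ) a = 0) : H.cl Γ = 0 := by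
  apply hom_zero_of_act
  intro a
  have h1 : H.actL (H.cl Γ) = (0 : H.A X →ₗ[K] H.A Y) := by
    apply ext_gr H
    intro m b hb
    exact h m b hb
  exact congrArg (fun g : H.A X →ₗ[K] H.A Y => g a) h1

/-- **The condition passes to twisted direct summands.** -/
theorem lowers_of_summand {c : ℕ} (hs : Summand C c X Z) {π : ℕ → C.A (Z.prod Z)}
    (h : IsCK H Z π) (hL : KernelLowers H π) :
    ∃ π' : ℕ → C.A (X.prod X), IsCK H X π' ∧ KernelLowers H π' := by
  obtain ⟨f, g, hf, hg, hfg⟩ := hs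
  have hf' : C.Deg ((X.dim : ℤ) + c - 0) f := by simpa using hf
  have hg' : C.Deg ((Z.dim : ℤ) + 0 - c) g := by simpa using hg
  set p : C.A (Z.prod Z) := C.comp g f with hpdef
  have hp : IsProjector p := by
    refine ⟨?_, ?_⟩
    · have h1 := comp_deg hg' hf'
      simpa using h1
    · rw [hpdef, comp_assoc, ← comp_assoc C f, hfg, dg_comp]
  have hfp : C.comp f p = f := by rw [hpdef, ← comp_assoc, hfg, dg_comp]
  have hpg : C.comp p g = g := by rw [hpdef, comp_assoc, hfg, comp_dg]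
  have hU := universal_of_lowers h hL
  obtain ⟨hr, hq⟩ := (universalC_iff h).1 hU
  obtain ⟨e, he, hc, -⟩ := exists_commuting h hp (fun a b hab => hr p hp.1 a b hab)
  have hLe := kernelLowers_all h hL he
  -- the projectors `e j ∘ p` outside the range vanish
  have hcoh : ∀ (j : ℕ) (m : ℤ) (a : H.A Z), H.Deg m a →
      (j < 2 * c ∨ 2 * X.dim + 2 * c < j) → H.act (H.cl (C.comp p (e j))) a = 0 := by
    intro j m a ha hj
    have h1 : H.Deg (m + 2 * ((0 : ℤ) - c)) (H.act (H.cl g) a) := actH_deg hg' ha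
    have h2 : H.Deg (m + 2 * ((0 : ℤ) - c) + 2 * ((c : ℤ) - 0)) (H.act (H.cl f)
        (H.act (H.cl g) a)) := actH_deg hf' h1
    have h3 : m + 2 * ((0 : ℤ) - c) + 2 * ((c : ℤ) - 0) = m := by ring
    rw [h3] at h2
    rw [TH133.actH_comp, hpdef, TH133.actH_comp, he.actH_eq j m h2]
    split_ifs with hm
    · have h4 : H.act (H.cl g) a = 0 := by
        apply eq_zero_of_deg h1
        omega
      rw [h4, TheoryData.act_map_zero]
    · rfl
  have hout : ∀ j : ℕ, (j < 2 * c ∨ 2 * X.dim + 2 * c < j) → C.comp p (e j) = 0 := by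
    intro j hj
    apply hq
    · exact comp_mem0 C hp.1 (he.deg j)
    · rw [comp_assoc, ← comp_assoc C (e j), ← hc, comp_assoc C p, he.idem, ← comp_assoc, hp.2]
    · exact cl_eq_zero_of_homogeneous fun m a ha => hcoh j m a ha hj
  let π' : ℕ → C.A (X.prod X) := fun i => C.comp (C.comp f (e (i + 2 * c))) g
  have hπ'def : ∀ i, π' i = C.comp (C.comp f (e (i + 2 * c))) g := fun i => rfl
  have hfe : ∀ j, C.comp f (e j) = C.comp f (C.comp p (e j)) := by
    intro j
    rw [← comp_assoc, hfp]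
  have hmul : ∀ i j, C.comp (π' i) (π' j) =
      C.comp (C.comp f (C.comp (e (i + 2 * c)) (e (j + 2 * c)))) g := by
    intro i j
    rw [hπ'def, hπ'def]
    calc C.comp (C.comp (C.comp f (e (i + 2 * c))) g) (C.comp (C.comp f (e (j + 2 * c))) g)
        = C.comp f (C.comp (C.comp (e (i + 2 * c)) p) (C.comp (e (j + 2 * c)) g)) := by
          rw [hpdef]
          simp only [comp_assoc]
      _ = C.comp f (C.comp (C.comp p (e (i + 2 * c))) (C.comp (e (j + 2 * c)) g)) := by rw [hc]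
      _ = C.comp (C.comp f p) (C.comp (e (i + 2 * c)) (C.comp (e (j + 2 * c)) g)) := by
          simp only [comp_assoc]
      _ = _ := by
          rw [hfp]
          simp only [comp_assoc]
  have he' : ∀ j, C.Deg ((Z.dim : ℤ) + c - c) (e j) := fun j => by simpa using he.deg j
  have hck : IsCK H X π' := by
    refine ⟨fun i => ?_, fun i hi => ?_, fun i => ?_, fun i j hij => ?_, ?_, fun i a ha => ?_,
      fun i m a hm ha => ?_⟩
    · have h1 := comp_deg (comp_deg hf' (he' (i + 2 * c))) hg'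
      simpa using h1
    · rw [hπ'def, hfe, hout _ (Or.inr (by omega)), comp_zero, zero_comp]
    · rw [hmul, he.idem]
    · rw [hmul, he.orth _ _ (by omega), comp_zero, zero_comp]
    · have h1 : ∑ i ∈ Finset.range (2 * X.dim + 1), π' i =
          C.comp (C.comp f (∑ i ∈ Finset.range (2 * X.dim + 1), C.comp p (e (i + 2 * c)))) g := by
        rw [comp_sum, sum_comp]
        apply Finset.sum_congr rfl
        intro i _
        rw [← hfe]
      have h2 : ∑ i ∈ Finset.range (2 * X.dim + 1), C.comp p (e (i + 2 * c)) = p := by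
        have h3 : ∑ j ∈ Finset.range (2 * c + (2 * X.dim + 1) + 2 * Z.dim), C.comp p (e j) = p := by
          rw [← comp_sum, he.sum_of_le (by omega), comp_dg]
        rw [Finset.sum_range_add, Finset.sum_range_add] at h3
        have h4 : ∑ x ∈ Finset.range (2 * c), C.comp p (e x) = 0 :=
          Finset.sum_eq_zero fun x hx => hout x (Or.inl (Finset.mem_range.1 hx))
        have h5 : ∑ x ∈ Finset.range (2 * Z.dim),
            C.comp p (e (2 * c + (2 * X.dim + 1) + x)) = 0 :=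
          Finset.sum_eq_zero fun x _ => hout _ (Or.inr (by omega))
        rw [h4, h5, zero_add, add_zero] at h3
        refine Eq.trans (Finset.sum_congr rfl fun i _ => ?_) h3
        rw [add_comm i]
      rw [h1, h2, hfp, hfg]
    · have h1 : H.Deg ((i : ℤ) + 2 * ((c : ℤ) - 0)) (H.act (H.cl f) a) := actH_deg hf' ha
      rw [hπ'def, TH133.actH_comp, TH133.actH_comp, he.actH_eq _ _ h1, if_pos (by push_cast; ring),
        ← TH133.actH_comp, hfg, TH133.actH_dg]
    · have h1 : H.Deg (m + 2 * ((c : ℤ) - 0)) (H.act (H.cl f) a) := actH_deg hf' ha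
      rw [hπ'def, TH133.actH_comp, TH133.actH_comp, he.actH_eq _ _ h1,
        if_neg (by push_cast; omega), TheoryData.act_map_zero]
  refine ⟨π', hck, ?_⟩
  intro γ hγ h0 a b hab
  have h1 : C.Deg Z.dim (C.comp (C.comp g γ) f) := by
    have h2 : C.Deg ((X.dim : ℤ) + 0 - 0) γ := by simpa using hγ
    have h3 := comp_deg (comp_deg hg' h2) hf'
    simpa using h3
  have h2 : H.cl (C.comp (C.comp g γ) f) = 0 := by
    apply cl_eq_zero_of_homogeneous
    intro m x _
    rw [TH133.actH_comp, TH133.actH_comp, h0, TheoryData.act_zero, TheoryData.act_map_zero]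
  have h3 := hLe _ h1 h2 (a + 2 * c) (b + 2 * c) (by omega)
  have h4 : C.comp (C.comp (π' a) γ) (π' b) =
      C.comp (C.comp f (C.comp (C.comp (e (a + 2 * c)) (C.comp (C.comp g γ) f))
        (e (b + 2 * c)))) g := by
    rw [hπ'def, hπ'def]
    simp only [comp_assoc]
  rw [h4, h3, comp_zero, zero_comp]

lemma isProjector_dg (X : 𝒱.Obj) : IsProjector (dg C X) := ⟨dg_mem C X, dg_comp C _⟩

lemma isMotiveCK_dg {π : ℕ → C.A (X.prod X)} : IsMotiveCK H (dg C X) π ↔ IsCK H X π := by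
  constructor
  · intro h
    exact ⟨h.deg, h.out, h.idem, h.orth, h.sum, fun i a ha => by
      rw [h.act_self i a ha, TH133.actH_dg], h.act_ne⟩
  · intro h
    exact ⟨h.deg, h.out, h.idem, h.orth, h.sum, fun i a ha => by
      rw [h.act_self i a ha, TH133.actH_dg], h.act_ne⟩

/-- Murre's conjectures for `Z` and `Z × Z` give (D) for `π^t × π`. -/
theorem lowers_of_murre (h1 : Murre H (dg C Z)) (h2 : Murre H (dg C (Z.prod Z))) :
    ∃ π, IsCK H Z π ∧ SatisfiesDAt H (squareCK π) Z.dim := by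
  obtain ⟨⟨π, hπ, -, -⟩, -⟩ := h1
  have h := isMotiveCK_dg.1 hπ
  refine ⟨π, h, ?_⟩
  obtain ⟨⟨σ, hσ, hB, hD⟩, hCC⟩ := h2
  have hsq : IsCK H (Z.prod Z) (squareCK π) := h.dual.prod h
  intro x hx h0
  rw [hCC _ σ (isMotiveCK_dg.2 hsq) hσ Z.dim 1, (isMotiveCK_dg.1 hσ).mem_ckFil]
  refine ⟨hx, fun j hj => ?_⟩
  rcases Nat.lt_or_ge (2 * Z.dim) j with h3 | h3
  · exact hB Z.dim j x hx h3
  · have h4 : j = 2 * Z.dim := by omega
    rw [h4]
    exact hD Z.dim x hx h0

omit hC hH in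
theorem main (C : TheoryData.{u, v, 0} 𝒱 ℚ)
    [IsChowProj C] {K : Type w} [Field K] (H : WeilTheoryData.{u, v, w} C K) [IsWeilProj H] :
    (∀ F : 𝒱.Obj → Prop, (∀ X, ∃ Z c, F Z ∧ Summand C c X Z) →
      ((∀ (X : 𝒱.Obj) (p : C.A (X.prod X)), IsProjector p → Murre H p) ↔
        ∀ Z, F Z → ∃ π, IsCK H Z π ∧ SatisfiesDAt H (squareCK π) Z.dim)) ∧
    (∀ (Z X : 𝒱.Obj) (c : ℕ), Summand C c X Z →
      (∃ π, IsCK H Z π ∧ SatisfiesDAt H (squareCK π) Z.dim) →
      NoPhantoms H X ∧ ∀ p : C.A (X.prod X), IsProjector p → Murre H p) ∧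
    (∀ (X : 𝒱.Obj) (p : C.A (X.prod X)), IsProjector p →
      (((∃ ρ, IsMotiveCK H p ρ) ∧ ∃ ρ, IsMotiveCK H (dg C X - p) ρ) ↔
        ∃ π, IsCK H X π ∧ ∀ a b : ℕ, a < b → C.comp (C.comp (π a) p) (π b) = 0) ∧
      ∀ π, IsCK H X π → (∀ a b : ℕ, a < b → C.comp (C.comp (π a) p) (π b) = 0) →
        ∃ ρ, IsMotiveCK H p ρ ∧ ∀ (j ν : ℕ) (x : C.A X),
          x ∈ ckFil C ρ j ν ↔ x ∈ ckFil C π j ν ∧ C.act p x = x) := by
  have hloc : ∀ (Z X : 𝒱.Obj) (c : ℕ), Summand C c X Z →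
      (∃ π, IsCK H Z π ∧ SatisfiesDAt H (squareCK π) Z.dim) →
      NoPhantoms H X ∧ ∀ p : C.A (X.prod X), IsProjector p → Murre H p := by
    rintro Z X c hs ⟨π, h, hD⟩
    have hL : KernelLowers H π := (satisfiesDAt_square_iff h).1 hD
    obtain ⟨π', h', hL'⟩ := lowers_of_summand hs h hL
    exact ⟨((universalC_iff h').1 (universal_of_lowers h' hL')).2,
      fun p hp => murre_of_lowers h' hL' hp⟩
  refine ⟨fun F hF => ⟨fun h Z _ => ?_, fun h X p hp => ?_⟩, hloc, fun X p hp => ⟨⟨?_, ?_⟩, ?_⟩⟩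
  · exact lowers_of_murre (h Z _ (isProjector_dg (H := H) Z))
      (h (Z.prod Z) _ (isProjector_dg (H := H) (Z.prod Z)))
  · obtain ⟨Z, c, hZ, hs⟩ := hF X
    exact (hloc Z X c hs (h Z hZ)).2 p hp
  · rintro ⟨⟨ρ, hρ⟩, ρ', hρ'⟩
    exact ⟨_, isCK_add hp hρ hρ', pNoRaise_add hp hρ hρ'⟩
  · rintro ⟨π, h, hr⟩
    obtain ⟨π', h', hc, -⟩ := exists_commuting h hp hr
    have hc' : ∀ i, C.comp (dg C X - p) (π' i) = C.comp (π' i) (dg C X - p) := by
      intro i
      rw [comp_sub_dg (H := H), sub_dg_comp (H := H), hc]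
    exact ⟨⟨_, isMotiveCK_of_comm h' hp hc⟩,
      ⟨_, isMotiveCK_of_comm h' (isProjector_compl (H := H) hp) hc'⟩⟩
  · intro π h hr
    obtain ⟨π', h', hc, hps⟩ := exists_commuting h hp hr
    refine ⟨_, isMotiveCK_of_comm h' hp hc, fun j ν x => ?_⟩
    rw [ckFil_motive h' hp hc]
    have h1 : x ∈ ckFil C π' j ν ↔ x ∈ ckFil C π j ν := by
      rw [mem_ckFil_iff_act h', mem_ckFil_iff_act h]
      obtain ⟨g1, g2⟩ := hps (2 * j + 1 - ν)
      constructor
      · rintro ⟨k1, k2⟩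
        refine ⟨k1, ?_⟩
        rw [← k2, ← C.act_comp, g1]
      · rintro ⟨k1, k2⟩
        refine ⟨k1, ?_⟩
        rw [← k2, ← C.act_comp, g2]
    rw [h1]

end Pool.Agent.Q28.MM
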