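import Pool.Agent.TH133.Defs

/-!
# Murre's conjectures for Chow motives: definitions
-/

open CategoryTheory AlgebraicGeometry

universe u v w

namespace Pool.Agent.Q28.MM

open Pool.Agent.H914 Pool.Agent.H914.VarClass Pool.Agent.H914.VarClass.Obj Pool.Agent.W492.BB
  Pool.Agent.W550.Corr Pool.Agent.TH133

variable {k : Type u} [Field k] {𝒱 : VarClass k} {C : TheoryData.{u, v, 0} 𝒱 ℚ}

/-- The Tate twist `h(X)(-c)` of the Chow motive of `X` is a direct summand of the Chow motive of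
`Z`: there are correspondences `f ∈ CH^(dim X + c)(X × Z)`, `g ∈ CH^(dim Z - c)(Z × X)` with
`g ∘ f = Δ_X`. -/
def Summand (C : TheoryData.{u, v, 0} 𝒱 ℚ) (c : ℕ) (X Z : 𝒱.Obj) : Prop :=
  ∃ (f : C.A (X.prod Z)) (g : C.A (Z.prod X)), C.Deg ((X.dim : ℤ) + c) f ∧
    C.Deg ((Z.dim : ℤ) - c) g ∧ C.comp f g = dg C X

variable {X : 𝒱.Obj}

/-- The Chow-Kunneth decomposition `π^t × π` of `X × X`, where `π` is a Chow-Kunneth decomposition of
`X`: the `n`-th projector is the sum of the external products of the transpose of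
`π (2 dim X - i)` and of `π (n - i)`. -/
noncomputable def squareCK (π : ℕ → C.A (X.prod X)) : ℕ → C.A ((X.prod X).prod (X.prod X)) :=
  fun n => ∑ i ∈ Finset.range (n + 1),
    C.pull (prodMap (fst X X) (fst X X)) (if i ≤ 2 * X.dim then tp C (π (2 * X.dim - i)) else 0) *
      C.pull (prodMap (snd X X) (snd X X)) (π (n - i))

/-- `p` is a projector, so that `(X, p)` is a Chow motive. -/
def IsProjector (p : C.A (X.prod X)) : Prop := C.Deg X.dim p ∧ C.comp p p = p

variable {K : Type w} [Field K] (H : WeilTheoryData.{u, v, w} C K)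

/-- The condition (D) for the one Chow-Kunneth decomposition `π` of `X` in the one codimension `i`:
the homologically trivial classes in `CH^i(X)` lie in `F^1 CH^i(X)` (the converse is clear). -/
def SatisfiesDAt (π : ℕ → C.A (X.prod X)) (i : ℕ) : Prop :=
  ∀ x : C.A X, C.Deg i x → H.cl x = 0 → x ∈ ckFil C π i 1

/-- A Chow-Kunneth decomposition of the motive `M = (X, p)`: projectors `ρ 0, …, ρ (2 dim X)`
(`ρ i = 0` for `i > 2 dim X`), mutually orthogonal, with sum `p`, such that the cohomology of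
`M^i = (X, ρ i)` is `H^i(M) = p_* H^i(X)`: the class of `ρ i` acts on `H^i(X)` as the class of `p`,
and as zero on `H^m(X)` for `m ≠ i`. -/
structure IsMotiveCK (p : C.A (X.prod X)) (ρ : ℕ → C.A (X.prod X)) : Prop where
  deg : ∀ i, C.Deg X.dim (ρ i)
  out : ∀ i, 2 * X.dim < i → ρ i = 0
  idem : ∀ i, C.comp (ρ i) (ρ i) = ρ i
  orth : ∀ i j, i ≠ j → C.comp (ρ i) (ρ j) = 0
  sum : ∑ i ∈ Finset.range (2 * X.dim + 1), ρ i = p
  act_self : ∀ (i : ℕ) (a : H.A X), H.Deg i a → H.act (H.cl (ρ i)) a = H.act (H.cl p) a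
  act_ne : ∀ (i : ℕ) (m : ℤ) (a : H.A X), m ≠ i → H.Deg m a → H.act (H.cl (ρ i)) a = 0

/-- Murre's conjectures for the motive `M = (X, p)` (equivalently for its Tate twists). There is a
Chow-Kunneth decomposition `ρ` of `M` (A) such that `CH^j(M^i) = 0` for `i > 2 j` (B) and
`CH^j(M^(2j))_hom = 0` for all `j` (D), and the filtration
`F^ν CH^j(M) = ⊕_{i ≤ 2 j - ν} CH^j(M^i)` is the same for all Chow-Kunneth decompositions of `M`
(C). Here `CH^j(M^i) = (ρ i)_* CH^j(X)`. -/
def Murre (p : C.A (X.prod X)) : Prop :=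
  (∃ ρ, IsMotiveCK H p ρ ∧
    (∀ (j i : ℕ) (x : C.A X), C.Deg j x → 2 * j < i → C.act (ρ i) x = 0) ∧
    (∀ (j : ℕ) (x : C.A X), C.Deg j x → H.cl x = 0 → C.act (ρ (2 * j)) x = 0)) ∧
  (∀ ρ ρ', IsMotiveCK H p ρ → IsMotiveCK H p ρ' → ∀ j ν : ℕ, ckFil C ρ j ν = ckFil C ρ' j ν)

/-- The Chow motive of `X` has no phantom summand: a homologically trivial idempotent
self-correspondence of degree zero is zero. -/
def NoPhantoms (X : 𝒱.Obj) : Prop :=
  ∀ γ : C.A (X.prod X), C.Deg X.dim γ → C.comp γ γ = γ → H.cl γ = 0 → γ = 0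

end Pool.Agent.Q28.MM
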