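import Pool.Agent.Q28.MC.Ring

/-!
# Idempotents which do not raise the degrees
-/

namespace Pool.Agent.Q28.MC

open Finset

variable {R S : Type*} [Ring R] [Ring S] {f : R →+* S} {p : ℕ → S} {N : ℕ}

/-- The partial sums are invariant under `x`. -/
def Inv (e : ℕ → R) (x : R) : Prop := ∀ m, ps e m * x * ps e m = x * ps e m

namespace IsSys

variable {e e' : ℕ → R} (h : IsSys f p N e)

include h

lemma inv_of {x : R} (hx : ∀ a b, a < b → e b * x * e a = 0) : Inv e x := by
  intro m
  have h0 : (1 - ps e m) * x * ps e m = 0 := by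
    apply h.eq_zero
    intro i j
    have h1 : e i * (1 - ps e m) = if i < m then 0 else e i := by
      rw [mul_sub, mul_one, h.mul_ps]
      split_ifs
      · exact sub_self _
      · exact sub_zero _
    have h2 : e i * ((1 - ps e m) * x * ps e m) * e j =
        (e i * (1 - ps e m)) * x * (ps e m * e j) := by simp only [mul_assoc]
    rw [h2, h1, h.ps_mul]
    by_cases hi : i < m
    · rw [if_pos hi, zero_mul, zero_mul]
    · by_cases hj : j < m
      · rw [if_neg hi, if_pos hj]
        exact hx j i (by omega)
      · rw [if_neg hj, mul_zero]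
  rw [sub_mul, sub_mul, one_mul, sub_eq_zero] at h0
  exact h0.symm

omit h in
lemma inv_mul {x y : R} (hx : Inv e x) (hy : Inv e y) : Inv e (x * y) := by
  intro m
  calc ps e m * (x * y) * ps e m = ps e m * x * (y * ps e m) := by simp only [mul_assoc]
    _ = (ps e m * x * ps e m) * y * ps e m := by rw [← hy m]; simp only [mul_assoc]
    _ = x * (ps e m * y * ps e m) := by rw [hx m]; simp only [mul_assoc]
    _ = _ := by rw [hy m, mul_assoc]

lemma inv_one : Inv e (1 : R) := by
  intro m
  rw [mul_one, one_mul, h.ps_idem]

lemma inv_pow {x : R} (hx : Inv e x) (n : ℕ) : Inv e (x ^ n) := by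
  induction n with
  | zero => rw [pow_zero]; exact h.inv_one
  | succ n ih => rw [pow_succ]; exact inv_mul ih hx

omit h in
lemma inv_sum {ι : Type*} (s : Finset ι) (x : ι → R) (hx : ∀ i ∈ s, Inv e (x i)) :
    Inv e (∑ i ∈ s, x i) := by
  intro m
  rw [mul_sum, sum_mul, sum_mul]
  exact sum_congr rfl fun i hi => hx i hi m

omit h in
lemma inv_neg {x : R} (hx : Inv e x) : Inv e (-x) := by
  intro m
  rw [mul_neg, neg_mul, neg_mul, hx m]

omit h in
lemma inv_add {x y : R} (hx : Inv e x) (hy : Inv e y) : Inv e (x + y) := by
  intro m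
  rw [mul_add, add_mul, add_mul, hx m, hy m]

/-- The inverse of a unipotent element, with its invariance. -/
lemma exists_inv' {n : R} (hn : ∀ a b, a ≤ b → e b * n * e a = 0) :
    ∃ v, (1 + n) * v = 1 ∧ v * (1 + n) = 1 ∧ Inv e v := by
  have h1 := h.pow_eq_zero hn
  have hi : Inv e n := h.inv_of fun a b hab => hn a b hab.le
  refine ⟨∑ i ∈ range (N + 1), (-n) ^ i, ?_, ?_, ?_⟩
  · have h2 := mul_neg_geom_sum (-n) (N + 1)
    rw [sub_neg_eq_add, neg_pow, h1, mul_zero, sub_zero] at h2
    exact h2
  · have h2 := geom_sum_mul_neg (-n) (N + 1)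
    rw [sub_neg_eq_add, neg_pow, h1, mul_zero, sub_zero] at h2
    exact h2
  · exact inv_sum _ _ fun i _ => h.inv_pow (inv_neg hi) i

/-- **An idempotent which does not raise the degrees commutes with a conjugate system.** -/
theorem exists_commuting {q : R} (hq : q * q = q) (ht : ∀ a b, a < b → e b * q * e a = 0)
    (hcoh : ∀ i j, i ≠ j → f (e j * q * e i) = 0) :
    ∃ e', IsSys f p N e' ∧ (∀ i, e' i * q = q * e' i) ∧
      ∀ m, ps e m * ps e' m = ps e' m ∧ ps e' m * ps e m = ps e m := by
  set d : R := ∑ i ∈ range (N + 1), e i * q * e i with hd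
  have hed : ∀ i, e i * d = e i * q * e i := by
    intro i
    rw [hd, mul_sum]
    by_cases hi : i ≤ N
    · rw [sum_eq_single i]
      · rw [← mul_assoc, ← mul_assoc, h.idem]
      · intro j _ hj
        rw [← mul_assoc, ← mul_assoc, h.orth (Ne.symm hj), zero_mul, zero_mul]
      · intro h1
        exact absurd (mem_range.2 (by omega)) h1
    · rw [h.out i (by omega), zero_mul, zero_mul]
      exact sum_eq_zero fun j _ => zero_mul _
  have hde : ∀ i, d * e i = e i * q * e i := by
    intro i
    rw [hd, sum_mul]
    by_cases hi : i ≤ N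
    · rw [sum_eq_single i]
      · rw [mul_assoc, h.idem]
      · intro j _ hj
        rw [mul_assoc, h.orth hj, mul_zero]
      · intro h1
        exact absurd (mem_range.2 (by omega)) h1
    · rw [h.out i (by omega), mul_zero]
      exact sum_eq_zero fun j _ => mul_zero _
  -- the diagonal entries are idempotent
  have hdiag : ∀ i, e i * q * e i * q * e i = e i * q * e i := by
    intro i
    by_cases hi : i ≤ N
    · have h1 : e i * q * e i = ∑ c ∈ range (N + 1), (e i * q * e c) * (e c * q * e i) := by
        have h2 : e i * q * e i = e i * q * (∑ c ∈ range (N + 1), e c) * q * e i := by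
          rw [h.sum, mul_one, mul_assoc (e i) q q, hq]
        rw [h2, mul_sum, sum_mul, sum_mul]
        apply sum_congr rfl
        intro c _
        calc e i * q * e c * q * e i = e i * q * (e c * e c) * q * e i := by rw [h.idem]
          _ = _ := by simp only [mul_assoc]
      conv_rhs => rw [h1]
      rw [sum_eq_single i]
      · calc e i * q * e i * q * e i = e i * q * (e i * e i) * q * e i := by rw [h.idem]
          _ = _ := by simp only [mul_assoc]
      · intro c _ hc
        rcases lt_or_gt_of_ne hc with h2 | h2
        · rw [ht c i h2, zero_mul]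
        · rw [ht i c h2, mul_zero]
      · intro h2
        exact absurd (mem_range.2 (by omega)) h2
    · rw [h.out i (by omega)]
      simp
  have hdd : d * d = d := by
    rw [← sub_eq_zero]
    apply h.eq_zero
    intro i j
    have h1 : e i * (d * d - d) * e j = (e i * d) * (d * e j) - e i * d * e j := by
      rw [mul_sub, sub_mul]
      simp only [mul_assoc]
    rw [h1, hed, hde]
    by_cases hij : i = j
    · subst hij
      have h2 : e i * q * e i * (e i * q * e i) = e i * q * e i := by
        calc e i * q * e i * (e i * q * e i) = e i * q * (e i * e i) * q * e i := by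
              simp only [mul_assoc]
          _ = _ := by rw [h.idem, hdiag]
      rw [h2, mul_assoc (e i * q), h.idem, sub_self]
    · have h2 : e i * q * e i * (e j * q * e j) = 0 := by
        calc e i * q * e i * (e j * q * e j) = e i * q * (e i * e j) * q * e j := by
              simp only [mul_assoc]
          _ = 0 := by rw [h.orth hij, mul_zero, zero_mul, zero_mul]
      rw [h2, mul_assoc (e i * q), h.orth hij, mul_zero, sub_self]
  set n : R := d * q + (1 - d) * (1 - q) - 1 with hn
  have hn1 : 1 + n = d * q + (1 - d) * (1 - q) := by rw [hn]; abel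
  have hn2 : n = d * q + d * q - d - q := by
    rw [hn, mul_sub, mul_one, sub_mul, one_mul]
    abel
  have hst : ∀ a b, a ≤ b → e b * n * e a = 0 := by
    intro a b hab
    have h1 : e b * n * e a = (e b * d) * q * e a + (e b * d) * q * e a - (e b * d) * e a -
        e b * q * e a := by
      rw [hn2]
      simp only [mul_sub, mul_add, sub_mul, add_mul, mul_assoc]
    rw [h1, hed]
    rcases hab.eq_or_lt with h2 | h2
    · subst h2
      rw [hdiag, mul_assoc (e a * q), h.idem]
      abel
    · have h3 : e b * q * e b * q * e a = 0 := by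
        rw [mul_assoc (e b * q * e b), mul_assoc (e b * q), ← mul_assoc (e b), ht a b h2, mul_zero]
      rw [h3, mul_assoc (e b * q), h.orth (by omega), mul_zero, ht a b h2]
      simp
  obtain ⟨v, hv, hv', hvi⟩ := h.exists_inv' hst
  have hfd : f d = f q := by
    have h1 : f q = ∑ i ∈ range (N + 1), ∑ j ∈ range (N + 1), f (e i * q * e j) := by
      conv_lhs => rw [h.eq_sum q]
      rw [map_sum]
      exact sum_congr rfl fun i _ => map_sum f _ _
    rw [h1, hd, map_sum]
    apply sum_congr rfl
    intro i hi
    rw [sum_eq_single i]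
    · intro j _ hj
      exact hcoh j i hj
    · intro h2
      exact absurd hi h2
  have hfn : f (1 + n) = 1 := by
    rw [hn1, map_add, map_mul, map_mul, map_sub, map_sub, map_one, hfd, ← map_mul, hq, mul_sub,
      mul_one, sub_mul, one_mul, ← map_mul, hq]
    abel
  have hfv : f v = 1 := by
    have := congrArg f hv
    rwa [map_mul, hfn, one_mul, map_one] at this
  have hc : (1 + n) * q = d * (1 + n) := by
    rw [hn1, add_mul, mul_add, mul_assoc d q q, hq, mul_assoc (1 - d), sub_mul 1 q q, one_mul, hq,
      sub_self, mul_zero, ← mul_assoc d d q, hdd, ← mul_assoc d (1 - d), mul_sub d 1 d, mul_one,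
      hdd, sub_self, zero_mul]
  have hc' : q * v = v * d := by
    calc q * v = (v * (1 + n)) * q * v := by rw [hv', one_mul]
      _ = v * ((1 + n) * q) * v := by simp only [mul_assoc]
      _ = v * d * ((1 + n) * v) := by rw [hc]; simp only [mul_assoc]
      _ = v * d := by rw [hv, mul_one]
  refine ⟨fun i => v * e i * (1 + n), h.conj hv' hv hfv, fun i => ?_, fun m => ?_⟩
  · calc v * e i * (1 + n) * q = v * (e i * ((1 + n) * q)) := by simp only [mul_assoc]
      _ = v * (e i * d) * (1 + n) := by rw [hc]; simp only [mul_assoc]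
      _ = v * (d * e i) * (1 + n) := by rw [hed, hde]
      _ = (v * d) * e i * (1 + n) := by simp only [mul_assoc]
      _ = q * (v * e i * (1 + n)) := by rw [← hc']; simp only [mul_assoc]
  · have h1 : ps (fun i => v * e i * (1 + n)) m = v * ps e m * (1 + n) := by
      rw [ps, ps, mul_sum, sum_mul]
    have h2 : Inv e (1 + n) := inv_add h.inv_one (h.inv_of fun a b hab => hst a b hab.le)
    rw [h1]
    constructor
    · rw [← mul_assoc, ← mul_assoc, hvi m]
    · rw [mul_assoc (v * ps e m), mul_assoc v, ← mul_assoc (ps e m), h2 m, ← mul_assoc, hv',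
        one_mul]

end IsSys

end Pool.Agent.Q28.MC
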