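import Pool.Agent.Q28.MM.Defs
import Pool.Agent.Q28.MM.Ring
import Pool.Agent.Q28.MC.D
import Pool.Agent.Q28.MC.Transfer

/-!
# Chow-Kunneth decompositions of direct summands
-/

open CategoryTheory AlgebraicGeometry

universe u v w

namespace Pool.Agent.Q28.MM

open Pool.Agent.H914 Pool.Agent.H914.VarClass Pool.Agent.H914.VarClass.Obj Pool.Agent.W492.BB
  Pool.Agent.TH133 Pool.Agent.W550.Corr Pool.Agent.Q28.MC

set_option linter.unusedSectionVars false

variable {k : Type u} [Field k] {𝒱 : VarClass k} {C : TheoryData.{u, v, 0} 𝒱 ℚ}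
  [hC : IsChowProj C] {K : Type w} [Field K] {H : WeilTheoryData.{u, v, w} C K}
  [hH : IsWeilProj H] {X Y Z : 𝒱.Obj}

include hC hH

/-- The projector `p` does not raise the weights of `π`. -/
def PNoRaise (C : TheoryData.{u, v, 0} 𝒱 ℚ) {X : 𝒱.Obj} (π : ℕ → C.A (X.prod X))
    (p : C.A (X.prod X)) : Prop :=
  ∀ a b : ℕ, a < b → C.comp (C.comp (π a) p) (π b) = 0

/-- A decomposition commuting with a projector that does not raise. -/
theorem exists_commuting {π : ℕ → C.A (X.prod X)} (h : IsCK H X π) {p : C.A (X.prod X)}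
    (hp : IsProjector p) (hr : PNoRaise C π p) :
    ∃ π', IsCK H X π' ∧ (∀ i, C.comp p (π' i) = C.comp (π' i) p) ∧
      ∀ m, C.comp (firstPart C π' m) (firstPart C π m) = firstPart C π' m ∧
        C.comp (firstPart C π m) (firstPart C π' m) = firstPart C π m := by
  obtain ⟨e', h', hc, hps⟩ := (isSys h h).exists_commuting (q := ⟨p, hp.1⟩) (Subtype.ext hp.2)
    (fun a b hab => by
      apply Subtype.ext
      rw [val_sand]
      exact hr a b hab)
    (fun i j hij => act0_sand h _ hij)
  have hck := isCK_of_isSys h h'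
  refine ⟨_, hck, fun i => ?_, fun m => ?_⟩
  · exact congrArg (fun x : cor0 C X => (x : Cor C X)) (hc i)
  · have e1 := ps_val h m
    have e2 := ps_val hck m
    have h1 := congrArg (fun x : cor0 C X => (x : Cor C X)) (hps m).1
    have h2 := congrArg (fun x : cor0 C X => (x : Cor C X)) (hps m).2
    rw [← e1, ← e2]
    exact ⟨h1, h2⟩

lemma comp_p_of {p : C.A (X.prod X)} {ρ : ℕ → C.A (X.prod X)} (h : IsMotiveCK H p ρ) (i : ℕ) :
    C.comp (ρ i) p = ρ i ∧ C.comp p (ρ i) = ρ i := by
  by_cases hi : i ≤ 2 * X.dim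
  · constructor
    · rw [← h.sum, comp_sum, Finset.sum_eq_single i]
      · exact h.idem i
      · intro j _ hj
        exact h.orth i j (Ne.symm hj)
      · intro h1
        exact absurd (Finset.mem_range.2 (by omega)) h1
    · rw [← h.sum, sum_comp, Finset.sum_eq_single i]
      · exact h.idem i
      · intro j _ hj
        exact h.orth j i hj
      · intro h1
        exact absurd (Finset.mem_range.2 (by omega)) h1
  · rw [h.out i (by omega), zero_comp, comp_zero]
    exact ⟨rfl, rfl⟩

lemma comp_sub_dg (a p : C.A (X.prod X)) : C.comp a (dg C X - p) = a - C.comp a p := by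
  have h1 : C.comp a (dg C X - p) + C.comp a p = a := by
    rw [← comp_add, sub_add_cancel, comp_dg]
  exact eq_sub_of_add_eq h1

lemma sub_dg_comp (a p : C.A (X.prod X)) : C.comp (dg C X - p) a = a - C.comp p a := by
  have h1 : C.comp (dg C X - p) a + C.comp p a = a := by
    rw [← add_comp, sub_add_cancel, dg_comp]
  exact eq_sub_of_add_eq h1

lemma isProjector_compl {p : C.A (X.prod X)} (hp : IsProjector p) : IsProjector (dg C X - p) := by
  refine ⟨Submodule.sub_mem _ (dg_mem C X) hp.1, ?_⟩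
  rw [comp_sub_dg (H := H), sub_dg_comp (H := H), hp.2, sub_self, sub_zero]

/-- The decomposition of the motive cut out by a commuting decomposition. -/
lemma isMotiveCK_of_comm {π : ℕ → C.A (X.prod X)} (h : IsCK H X π) {p : C.A (X.prod X)}
    (hp : IsProjector p) (hc : ∀ i, C.comp p (π i) = C.comp (π i) p) :
    IsMotiveCK H p (fun i => C.comp (π i) p) where
  deg i := comp_mem0 C (h.deg i) hp.1
  out i hi := by rw [h.out i hi, zero_comp]
  idem i := by
    rw [comp_assoc, ← comp_assoc C p, hc, comp_assoc C (π i) p p, hp.2, ← comp_assoc, h.idem]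
  orth i j hij := by
    rw [comp_assoc, ← comp_assoc C p, hc, comp_assoc C (π j) p p, hp.2, ← comp_assoc, h.orth i j hij,
      zero_comp]
  sum := by rw [← sum_comp, h.sum, dg_comp]
  act_self i a ha := by
    rw [TH133.actH_comp, h.act_self i a ha]
  act_ne i m a hm ha := by
    rw [TH133.actH_comp, h.act_ne i m a hm ha, TheoryData.act_map_zero]

/-- The decomposition of `X` from decompositions of complementary motives. -/
lemma isCK_add {p : C.A (X.prod X)} (hp : IsProjector p) {ρ ρ' : ℕ → C.A (X.prod X)}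
    (h : IsMotiveCK H p ρ) (h' : IsMotiveCK H (dg C X - p) ρ') :
    IsCK H X (fun i => ρ i + ρ' i) := by
  have h1 : ∀ i j, C.comp (ρ i) (ρ' j) = 0 := by
    intro i j
    rw [← (comp_p_of h i).1, comp_assoc, ← (comp_p_of h' j).2, ← comp_assoc C p,
      comp_sub_dg (H := H), hp.2, sub_self, zero_comp, comp_zero]
  have h2 : ∀ i j, C.comp (ρ' i) (ρ j) = 0 := by
    intro i j
    rw [← (comp_p_of h' i).1, comp_assoc, ← (comp_p_of h j).2, ← comp_assoc C (dg C X - p),
      sub_dg_comp (H := H), hp.2, sub_self, zero_comp, comp_zero]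
  refine ⟨fun i => Submodule.add_mem _ (h.deg i) (h'.deg i), fun i hi => ?_, fun i => ?_,
    fun i j hij => ?_, ?_, fun i a ha => ?_, fun i m a hm ha => ?_⟩
  · change ρ i + ρ' i = 0
    rw [h.out i hi, h'.out i hi, add_zero]
  · change C.comp (ρ i + ρ' i) (ρ i + ρ' i) = ρ i + ρ' i
    rw [comp_add, add_comp, add_comp, h1, h2, h.idem, h'.idem, add_zero, zero_add]
  · change C.comp (ρ i + ρ' i) (ρ j + ρ' j) = 0
    rw [comp_add, add_comp, add_comp, h1, h2, h.orth i j hij, h'.orth i j hij, add_zero, add_zero]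
  · rw [Finset.sum_add_distrib, h.sum, h'.sum, add_sub_cancel]
  · rw [map_add, H.act_add, h.act_self i a ha, h'.act_self i a ha, ← H.act_add, ← map_add,
      add_sub_cancel, TH133.actH_dg]
  · rw [map_add, H.act_add, h.act_ne i m a hm ha, h'.act_ne i m a hm ha, add_zero]

/-- A projector with decompositions of both parts does not raise the weights of the sum. -/
lemma pNoRaise_add {p : C.A (X.prod X)} (hp : IsProjector p) {ρ ρ' : ℕ → C.A (X.prod X)}
    (h : IsMotiveCK H p ρ) (h' : IsMotiveCK H (dg C X - p) ρ') :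
    PNoRaise C (fun i => ρ i + ρ' i) p := by
  intro a b hab
  have hck := isCK_add hp h h'
  have h2 : ∀ i, C.comp (ρ' i) p = 0 := by
    intro i
    rw [← (comp_p_of h' i).1, comp_assoc, sub_dg_comp (H := H), hp.2, sub_self, comp_zero]
  have h3 : ∀ i, C.comp p (ρ' i) = 0 := by
    intro i
    rw [← (comp_p_of h' i).2, ← comp_assoc, comp_sub_dg (H := H), hp.2, sub_self, zero_comp]
  have h4 : C.comp (ρ a + ρ' a) p = ρ a := by
    rw [add_comp, h2, add_zero, (comp_p_of h a).1]
  have h5 : C.comp (ρ a) (ρ b + ρ' b) = 0 := by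
    rw [comp_add, h.orth a b hab.ne, zero_add, ← (comp_p_of h a).1, comp_assoc, h3, comp_zero]
  change C.comp (C.comp (ρ a + ρ' a) p) (ρ b + ρ' b) = 0
  rw [h4, h5]

/-- The filtration of the motive. -/
lemma ckFil_motive {π : ℕ → C.A (X.prod X)} (h : IsCK H X π) {p : C.A (X.prod X)}
    (hp : IsProjector p) (hc : ∀ i, C.comp p (π i) = C.comp (π i) p) (j ν : ℕ) (x : C.A X) :
    x ∈ ckFil C (fun i => C.comp (π i) p) j ν ↔ x ∈ ckFil C π j ν ∧ C.act p x = x := by
  set m := 2 * j + 1 - ν with hm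
  have hs : ∑ i ∈ Finset.range m, C.comp (π i) p = C.comp (firstPart C π m) p := by
    rw [firstPart, sum_comp]
  have hcf : C.comp p (firstPart C π m) = C.comp (firstPart C π m) p := by
    rw [firstPart, comp_sum, sum_comp]
    exact Finset.sum_congr rfl fun i _ => hc i
  rw [mem_ckFil_iff_act h, ← hm]
  constructor
  · rintro ⟨y, hy, rfl⟩
    rw [TheoryData.actL_apply, hs]
    have hy' : C.Deg j y := hy
    refine ⟨⟨?_, ?_⟩, ?_⟩
    · exact act_mem0 C (comp_mem0 C (firstPart_deg h m) hp.1) hy'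
    · rw [← C.act_comp, comp_assoc, hcf, ← comp_assoc, comp_firstPart h]
    · rw [← C.act_comp, comp_assoc, hp.2]
  · rintro ⟨⟨h1, h2⟩, h3⟩
    refine ⟨x, h1, ?_⟩
    rw [TheoryData.actL_apply, hs, C.act_comp, h2, h3]

end Pool.Agent.Q28.MM
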